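import Pool.Agent.Helper20.RG.Asm

/-!
# All convex domains, `p > 2`: `(G_s)` with `s < min (p, 3)` implies boundedness on `L^p`

No assumption on the curve besides convexity. The curve is approximated by chords over dyadic intervals of
length `2 ^ (-u)`; the error is summable in `u`, and the lacunary maximal function of level `u` is estimated by restricted
type estimates. For the indicator function of a set and a threshold `Λ` the number of chords which are large at a point
is bounded by (i) square functions, which use `(G_s)` only through the separation of the slopes, and (ii) a
theorem on ridges (sets invariant in the direction of the chord): a point which lies in many ridges of different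
directions, while the ridges have small density in the two squares around it, is one of few points; this is proved by
a count of pairs of directions with one scale of length for every ridge, and a third moment estimate. A point which lies in
squares of large density is treated by a stopping argument over `16 u` windows of scales, whose lengths depend on the
number of scales the ridge persists.
-/

open MeasureTheory Set
open Pool.Agent.Helper61.Lacunary (Plane ConditionG LpBounded)

namespace Pool.Agent.Helper20.Old.GeneralConvexDomains

theorem result (Ω : Set Plane) (hopen : IsOpen Ω) (hconv : Convex ℝ Ω)
    (hbdd : Bornology.IsBounded Ω) (h0 : (0 : Plane) ∈ Ω) (p s : ℝ) (hp : 2 < p) (hs : 0 < s)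
    (hsp : s < p) (hs3 : s < 3) (hG : ConditionG Ω s) : LpBounded Ω p :=
  Pool.Agent.Helper20.RG.pMAI Ω p s hopen hconv hbdd h0 hp hs hsp hs3 hG

end Pool.Agent.Helper20.Old.GeneralConvexDomains
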