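import Pool.Agent.Helper20.EQ.Asm
import Pool.Agent.Helper68.EP.Asm
import Pool.Agent.Helper61.Lacunary.Main

/-!
# Condition `(G_p)` implies boundedness on `L^p` exactly for `(√13 - 1) / 2 < p < 3`

Answer to the question for every exponent `p ≠ 2` except the two end points `p = 3` and `p = (√13 - 1) / 2`.

*Positive part, no exponent lost, no assumption on the curve besides convexity.* The boundary is approximated by
chords over dyadic intervals of length `2 ^ (-u)`; the error is summable in `u` and the operator of level `u` is
estimated by restricted type estimates. For `2 < p < 3` every hit (a scale and a chord for which the average of the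
indicator function is large) is charged to windows of scales whose lengths depend only on the class of the chord, and the
number of good windows is used, so that only the integrals `I_p` enter; the points where many ridges (sets invariant in
the direction of a chord) meet are treated by a theorem on ridges. For `p < 2` the hits are treated class by class,
by local square functions.

*Negative part.* For `p > 3` and for `1 < p < (√13 - 1) / 2` there is a domain with infinitely many blocks on its
boundary; block `i` looks like a polygon with `N` sides with slopes in arithmetic progression, each side being flat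
to a scale `2 ^ (-K)`, and the binary digits of the intercepts of the sides are chosen so that the lacunary
dilates of the sides can be moved to prescribed positions.
-/

open MeasureTheory Set
open Pool.Agent.Helper61.Lacunary

namespace Pool.Agent.Helper20.Old.SharpRange

theorem result (p : ℝ) (hp : 1 < p) (hp2 : p ≠ 2) (hp3 : p ≠ 3)
    (hps : p ≠ (Real.sqrt 13 - 1) / 2) :
    (∀ Ω : Set Plane, IsOpen Ω → Convex ℝ Ω → Bornology.IsBounded Ω → (0 : Plane) ∈ Ω →
      ConditionG Ω p → LpBounded Ω p) ↔ ((Real.sqrt 13 - 1) / 2 < p ∧ p < 3) := by
  have h13 : Real.sqrt 13 ^ 2 = 13 := Real.sq_sqrt (by norm_num)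
  have h0 : 0 ≤ Real.sqrt 13 := Real.sqrt_nonneg 13
  constructor
  · intro h
    refine ⟨?_, ?_⟩
    · by_contra hc
      have hlt : p < (Real.sqrt 13 - 1) / 2 := lt_of_le_of_ne (not_lt.mp hc) hps
      have h1 : p ^ 2 + p < 3 := by
        have h3 : 2 * p + 1 < Real.sqrt 13 := by linarith
        nlinarith
      obtain ⟨Ω, a1, a2, a3, a4, a5, a6⟩ :=
        main_construction (p := p) (by linarith) (fun i C => blockOK_small hp h1 i C)
      exact a6 (h Ω a1 a2 a3 a4 a5)
    · by_contra hc
      have hlt : 3 < p := lt_of_le_of_ne (not_lt.mp hc) (Ne.symm hp3)
      obtain ⟨Ω, a1, a2, a3, a4, a5, a6⟩ :=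
        main_construction (p := p) (by linarith) (fun i C => blockOK_large hlt i C)
      exact a6 (h Ω a1 a2 a3 a4 a5)
  · rintro ⟨h1, h3⟩ Ω b1 b2 b3 b4 b5
    rcases lt_or_gt_of_ne hp2 with h2 | h2
    · have h4 : 3 < p ^ 2 + p := by
        have h5 : Real.sqrt 13 < 2 * p + 1 := by linarith
        nlinarith
      exact Pool.Agent.Helper68.EP.pFZ Ω p b1 b2 b3 b4 hp h2 h4 b5
    · exact Pool.Agent.Helper20.EQ.pMAQ Ω p b1 b2 b3 b4 h2 h3 b5

end Pool.Agent.Helper20.Old.SharpRange
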